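import Mathlib

set_option autoImplicit false

namespace Pool.Agent.H.MP_16fe1e_an
open scoped Topology
open Set Filter Metric TopologicalSpace

def DB (g : ℝ → ℝ) : Prop := (∀ s : Set ℝ, s.OrdConnected → (g '' s).OrdConnected) ∧
  ∃ u : ℕ → ℝ → ℝ, (∀ m, Continuous (u m)) ∧ ∀ x, Tendsto (fun m => u m x) atTop (𝓝 (g x))

theorem bd {g : ℝ → ℝ} (hg : DB g) {c ε y y' : ℝ} (h : y ≠ y') (hy : |g y - c| < ε) :
    ∃ t ∈ uIcc y y', t ≠ y ∧ |g t - c| < ε := by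
  by_cases h1 : |g y' - c| < ε
  · exact ⟨y', right_mem_uIcc, h.symm, h1⟩
  have h2 := (hg.1 _ ordConnected_uIcc).uIcc_subset (mem_image_of_mem g (left_mem_uIcc (a := y)
    (b := y'))) (mem_image_of_mem g right_mem_uIcc)
  rw [abs_lt] at hy
  rw [not_lt, le_abs] at h1
  rcases h1 with h1 | h1
  · obtain ⟨t, ht, e⟩ := h2 (show (g y + (c + ε)) / 2 ∈ _ from
      mem_uIcc_of_le (by linarith) (by linarith))
    exact ⟨t, ht, fun h => by rw [h] at e; linarith, by rw [e, abs_lt]; constructor <;> linarith⟩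
  · obtain ⟨t, ht, e⟩ := h2 (show (g y + (c - ε)) / 2 ∈ _ from
      mem_uIcc_of_ge (by linarith) (by linarith))
    exact ⟨t, ht, fun h => by rw [h] at e; linarith, by rw [e, abs_lt]; constructor <;> linarith⟩

theorem win {g : ℝ → ℝ} (hg : DB g) {c ε y0 : ℝ} {F G : Set ℝ} (hF : IsClosed F) (hG : G.Finite)
    (h0 : y0 ∈ F) (hW : ∀ y ∈ F, |g y - c| < ε) : ∃ η > 0, ∀ y, |y - y0| < η → ε ≤ |g y - c| →
      ∃ s t, s < y ∧ y < t ∧ |g s - c| < ε ∧ |g t - c| < ε ∧ ∀ z ∈ Icc s t, z ∉ F ∧ z ∉ G := by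
  obtain ⟨δ, δ0, hδ⟩ := Metric.isOpen_iff.mp (hG.subset (diff_subset (t := {y0}))).isClosed.isOpen_compl
    y0 (by simp)
  obtain ⟨p, hp, p1, p2⟩ := bd hg (y' := y0 - δ / 2) (by linarith) (hW y0 h0)
  obtain ⟨q, hq, q1, q2⟩ := bd hg (y' := y0 + δ / 2) (by linarith) (hW y0 h0)
  rw [uIcc_of_ge (by linarith)] at hp
  rw [uIcc_of_le (by linarith)] at hq
  have p3 : p < y0 := lt_of_le_of_ne hp.2 p1
  have q3 : y0 < q := lt_of_le_of_ne hq.1 q1.symm
  refine ⟨min (y0 - p) (q - y0), lt_min (by linarith) (by linarith), fun y hy hy' => ?_⟩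
  rw [lt_min_iff, abs_lt, abs_lt] at hy
  obtain ⟨s0, hs0⟩ := ((isCompact_Icc (a := p) (b := y)).inter_right
    (hF.union (isClosed_singleton (x := p)))).exists_isGreatest
    ⟨p, ⟨le_rfl, by linarith⟩, Or.inr rfl⟩
  obtain ⟨t0, ht0⟩ := ((isCompact_Icc (a := y) (b := q)).inter_right
    (hF.union (isClosed_singleton (x := q)))).exists_isLeast
    ⟨q, ⟨by linarith, le_rfl⟩, Or.inr rfl⟩
  have a1 : |g s0 - c| < ε := hs0.1.2.elim (hW _) fun h => by rwa [h]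
  have a2 : |g t0 - c| < ε := ht0.1.2.elim (hW _) fun h => by rwa [h]
  have a3 : ∀ z, |g z - c| < ε → z ≠ y := fun z h e => by rw [e] at h; linarith
  obtain ⟨s, hs, s1, s2⟩ := bd hg (a3 _ a1) a1
  obtain ⟨t, ht, t1, t2⟩ := bd hg (a3 _ a2) a2
  rw [uIcc_of_le hs0.1.1.2] at hs
  rw [uIcc_of_ge ht0.1.1.1] at ht
  have s3 := lt_of_le_of_ne hs.1 s1.symm
  have t3 := lt_of_le_of_ne ht.2 t1
  have b1 := hs0.1.1.1
  have b2 := ht0.1.1.2
  have a4 : ∀ z ∈ Icc s t, z ∉ F := fun z hz h => by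
    rcases le_total z y with h' | h'
    · linarith [hs0.2 ⟨⟨by linarith [hz.1], h'⟩, Or.inl h⟩, hz.1]
    · linarith [ht0.2 ⟨⟨h', by linarith [hz.2]⟩, Or.inl h⟩, hz.2]
  refine ⟨s, t, lt_of_le_of_ne hs.2 (a3 _ s2), lt_of_le_of_ne ht.1 (a3 _ t2).symm, s2, t2,
    fun z hz => ⟨a4 z hz, fun h => hδ (a := z) ?_ ⟨h, fun e => a4 z hz (by rwa [e])⟩⟩⟩
  rw [mem_ball, Real.dist_eq, abs_lt]
  constructor <;> linarith [hz.1, hz.2, hp.1, hq.2]

def Q {X : Type} [MetricSpace X] (Γ : Set X) (h : X → ℝ) : Prop :=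
  ∀ π ∈ Γ, ∀ δ > 0, ∃ (C : Set X) (G : Set ℝ) (η : ℝ), IsPreconnected C ∧ G.Finite ∧ 0 < η ∧
    Γ ∩ ball π η ⊆ C ∧ ∀ γ ∈ C, h γ ∉ G → γ ∈ Γ ∩ ball π δ

theorem key {X : Type} [MetricSpace X] {Γ A B O : Set X} {h : X → ℝ} (ch : Continuous h)
    (hQ : Q Γ h) {g : ℝ → ℝ} (hg : DB g) {c ε : ℝ} {F : Set ℝ} (hF : IsClosed F)
    (hW : ∀ y ∈ F, |g y - c| < ε) (hAB : Γ ⊆ A ∪ B) (hB : B ⊆ Γ) (hO : IsOpen O)
    (h1 : ∀ γ ∈ Γ ∩ O, |g (h γ) - c| < ε → γ ∉ B)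
    (h2 : ∀ γ ∈ Γ ∩ O, γ ∈ closure A → γ ∈ closure B → h γ ∈ F)
    {π : X} (hπ : π ∈ Γ ∩ O) (πA : π ∈ closure A) (πB : π ∈ closure B) : False := by
  obtain ⟨δ, δ0, hδ⟩ := Metric.isOpen_iff.mp hO π hπ.2
  obtain ⟨C, G, η, hC, hG, η0, c1, c2⟩ := hQ π hπ.1 δ δ0
  obtain ⟨θ, θ0, hθ⟩ := win hg hF hG (h2 π hπ πA πB) hW
  obtain ⟨β, ⟨⟨b1, b2⟩, b3⟩, βB⟩ := mem_closure_iff.mp πB
    (ball π η ∩ ball π δ ∩ {γ | |h γ - h π| < θ})
    ((isOpen_ball.inter isOpen_ball).inter (isOpen_lt (by fun_prop) continuous_const))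
    ⟨⟨mem_ball_self η0, mem_ball_self δ0⟩, by simpa using θ0⟩
  have b4 : β ∈ Γ ∩ O := ⟨hB βB, hδ b2⟩
  obtain ⟨s, t, s1, t1, s2, t2, hz⟩ := hθ (h β) b3 (not_lt.mp fun h' => h1 β b4 h' βB)
  have c3 : ∀ γ ∈ C, h γ ∈ Icc s t → γ ∈ Γ ∩ O := fun γ hγ h' =>
    (c2 γ hγ (hz _ h').2).imp id fun h'' => hδ h''
  obtain ⟨γ, γC, ⟨g1, g2⟩, g3⟩ := hC ((closure A)ᶜ ∩ h ⁻¹' Ioo s t) ((closure B)ᶜ ∪ h ⁻¹' (Icc s t)ᶜ)
    (isClosed_closure.isOpen_compl.inter (isOpen_Ioo.preimage ch))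
    (isClosed_closure.isOpen_compl.union (isClosed_Icc.isOpen_compl.preimage ch))
    (fun γ hγ => by
      by_cases e1 : h γ ∈ Icc s t
      swap
      · exact Or.inr (Or.inr e1)
      by_cases e2 : γ ∈ closure B
      swap
      · exact Or.inr (Or.inl e2)
      have e3 := c3 γ hγ e1
      have e4 : γ ∉ closure A := fun e => (hz _ e1).1 (h2 γ e3 e e2)
      have e5 := (hAB e3.1).resolve_left fun e => e4 (subset_closure e)
      exact Or.inl ⟨e4, lt_of_le_of_ne e1.1 fun e => h1 γ e3 (by rwa [← e]) e5,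
        lt_of_le_of_ne e1.2 fun e => h1 γ e3 (by rwa [e]) e5⟩)
    ⟨β, c1 ⟨b4.1, b1⟩, fun e => (hz _ ⟨s1.le, t1.le⟩).1 (h2 β b4 e (subset_closure βB)), s1, t1⟩
    ⟨π, c1 ⟨hπ.1, mem_ball_self η0⟩, Or.inr fun e => (hz _ e).1 (h2 π hπ πA πB)⟩
  have g4 := Ioo_subset_Icc_self g2
  rcases hAB (c3 γ γC g4).1 with e | e
  · exact g1 (subset_closure e)
  · exact g3.elim (fun e' => e' (subset_closure e)) fun e' => e' g4

theorem core {X : Type} [MetricSpace X] [LocallyCompactSpace X] [SecondCountableTopology X]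
    {Γ : Set X} (hG : IsGδ Γ) (hc : IsPreconnected Γ) {h : X → ℝ} (ch : Continuous h) (hQ : Q Γ h)
    {g : ℝ → ℝ} (hg : DB g) : IsPreconnected ((fun γ => (γ, g (h γ))) '' Γ) := by
  intro U V hU hV hUV ⟨_, ⟨a, ha, rfl⟩, aU⟩ ⟨_, ⟨b, hb, rfl⟩, bV⟩
  by_contra hn
  set A := {γ ∈ Γ | (γ, g (h γ)) ∈ U}
  set B := {γ ∈ Γ | (γ, g (h γ)) ∈ V}
  have hAB : Γ ⊆ A ∪ B := fun γ hγ => (hUV ⟨γ, hγ, rfl⟩).imp (fun e => ⟨hγ, e⟩) fun e => ⟨hγ, e⟩
  set P := Γ ∩ (closure A ∩ closure B)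
  have hP : P.Nonempty := isPreconnected_closed_iff.mp hc _ _ isClosed_closure isClosed_closure
    (hAB.trans (union_subset_union subset_closure subset_closure))
    ⟨a, ha, subset_closure ⟨ha, aU⟩⟩ ⟨b, hb, subset_closure ⟨hb, bV⟩⟩
  have := (hG.inter (isClosed_closure.inter isClosed_closure : IsClosed (closure A ∩
    closure B)).isGδ).baireSpace_of_t2Space_locallyCompactSpace
  have := hP.to_subtype
  obtain ⟨u, cu, hu⟩ := hg.2
  let F : ℚ → ℚ → ℕ → Set ℝ := fun c ε N => ⋂ m ≥ N, {y | |u m y - c| ≤ ε}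
  have cF : ∀ c ε N, IsClosed (F c ε N) := fun c ε N =>
    isClosed_biInter fun m _ => isClosed_le (by fun_prop) continuous_const
  have sub : ∀ (W : Set (X × ℝ)) (D : Set X), IsOpen W → (∀ γ ∈ Γ, (γ, g (h γ)) ∈ W → γ ∉ D) →
      ∀ γ, (γ, g (h γ)) ∈ W → ∃ (O : countableBasis X) (c ε : ℚ) (N : ℕ), γ ∈ O.1 ∧ 0 < ε ∧
        h γ ∈ F c ε N ∧ ∀ γ' ∈ Γ ∩ O, |g (h γ') - c| < 2 * ε → γ' ∉ D := by
    intro W D hW hD γ hγ
    obtain ⟨r, r0, hr⟩ := Metric.isOpen_iff.mp hW _ hγ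
    obtain ⟨O, hO, o1, o2⟩ := (isBasis_countableBasis X).exists_subset_of_mem_open
      (mem_ball_self r0 : γ ∈ _) isOpen_ball
    obtain ⟨ε, e1, e2⟩ := exists_rat_btwn (show (0 : ℝ) < r / 3 by positivity)
    obtain ⟨c, c1, c2⟩ := exists_rat_btwn (show g (h γ) < g (h γ) + ε by linarith)
    obtain ⟨N, hN⟩ := eventually_atTop.mp ((hu (h γ)).eventually
      (Icc_mem_nhds (show (c : ℝ) - ε < g (h γ) by linarith)
        (show g (h γ) < (c : ℝ) + ε by linarith)))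
    refine ⟨⟨O, hO⟩, c, ε, N, o1, by exact_mod_cast e1, mem_iInter₂.mpr fun m hm => ?_,
      fun γ' h1 h2 => hD γ' h1.1 (hr ?_)⟩
    · show |u m (h γ) - c| ≤ ε
      exact abs_le.mpr ⟨by linarith [(hN m hm).1], by linarith [(hN m hm).2]⟩
    · rw [mem_ball, Prod.dist_eq, max_lt_iff, Real.dist_eq, abs_lt]
      rw [abs_lt] at h2
      exact ⟨o2 h1.2, by simp only; linarith [h2.1], by simp only; linarith [h2.2]⟩
  obtain ⟨⟨O, c, ε, N⟩, x, hx⟩ := nonempty_interior_of_iUnion_of_closed (X := P)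
    (f := fun i : countableBasis X × ℚ × ℚ × ℕ => {γ | (0 < i.2.2.1 ∧
      ((∀ γ' ∈ Γ ∩ i.1, |g (h γ') - i.2.1| < 2 * i.2.2.1 → γ' ∉ B) ∨
      ∀ γ' ∈ Γ ∩ i.1, |g (h γ') - i.2.1| < 2 * i.2.2.1 → γ' ∉ A)) ∧
      γ.1 ∈ closure (P ∩ i.1) ∩ h ⁻¹' F i.2.1 i.2.2.1 i.2.2.2})
    (fun i => isClosed_const.inter ((isClosed_closure.inter ((cF _ _ _).preimage ch)).preimage
      continuous_subtype_val)) (eq_univ_of_forall fun γ => by
      rcases hAB γ.2.1 with e | e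
      · obtain ⟨O, c, ε, N, a1, a2, a3, a4⟩ := sub U B hU
          (fun γ h1 h2 h3 => hn ⟨_, ⟨γ, h1, rfl⟩, h2, h3.2⟩) γ e.2
        exact mem_iUnion.mpr ⟨(O, c, ε, N), ⟨a2, Or.inl a4⟩, subset_closure ⟨γ.2, a1⟩, a3⟩
      · obtain ⟨O, c, ε, N, a1, a2, a3, a4⟩ := sub V A hV
          (fun γ h1 h2 h3 => hn ⟨_, ⟨γ, h1, rfl⟩, h3.2, h2⟩) γ e.2
        exact mem_iUnion.mpr ⟨(O, c, ε, N), ⟨a2, Or.inr a4⟩, subset_closure ⟨γ.2, a1⟩, a3⟩)
  obtain ⟨_, h1, ⟨O', hO', rfl⟩, h2⟩ := mem_interior.mp hx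
  obtain ⟨⟨e0, hgood⟩, x1, -⟩ := h1 h2
  obtain ⟨π, π1, π2, π3⟩ := mem_closure_iff.mp x1 O' hO' h2
  have e1 : (0 : ℝ) < ε := by exact_mod_cast e0
  have hW : ∀ y ∈ F c ε N, |g y - c| < 2 * ε := fun y hy => by
    have : |g y - c| ≤ ε := le_of_tendsto ((hu y).sub_const _).abs
      (eventually_atTop.mpr ⟨N, fun m hm => mem_iInter₂.mp hy m hm⟩)
    linarith
  have oO := (isOpen_of_mem_countableBasis O.2).inter hO'
  rcases hgood with e | e
  · exact key ch hQ hg (cF c ε N) hW hAB (fun _ h => h.1) oO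
      (fun γ h1 => e γ ⟨h1.1, h1.2.1⟩) (fun γ a1 a2 a3 => (h1 (a := ⟨γ, a1.1, a2, a3⟩) a1.2.2).2.2)
      ⟨π2.1, π3, π1⟩ π2.2.1 π2.2.2
  · exact key ch hQ hg (cF c ε N) hW (by rwa [union_comm]) (fun _ h => h.1) oO
      (fun γ h1 => e γ ⟨h1.1, h1.2.1⟩) (fun γ a1 a2 a3 => (h1 (a := ⟨γ, a1.1, a3, a2⟩) a1.2.2).2.2)
      ⟨π2.1, π3, π1⟩ π2.2.2 π2.2.1

theorem gd {X : Type} [MetricSpace X] {g : ℝ → ℝ} (hg : DB g) {p q : X → ℝ} (cp : Continuous p)
    (cq : Continuous q) : IsGδ {γ | q γ = g (p γ)} := by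
  obtain ⟨u, cu, hu⟩ := hg.2
  have : {γ | q γ = g (p γ)} = ⋂ j : ℕ, ⋂ N : ℕ, ⋃ m ≥ N, {γ | |u m (p γ) - q γ| < 1 / (j + 1)} := by
    ext γ
    simp only [mem_setOf_eq, mem_iInter, mem_iUnion, exists_prop]
    constructor
    · intro e j N
      have := ((hu (p γ)).sub_const (q γ)).abs
      rw [e, sub_self, abs_zero] at this
      rw [e]
      exact ((eventually_ge_atTop N).and (this.eventually_lt_const (by positivity))).exists
    · intro e
      rw [eq_comm, ← sub_eq_zero, ← abs_nonpos_iff]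
      refine ge_of_tendsto' tendsto_one_div_add_atTop_nhds_zero_nat fun j => ?_
      exact isClosed_Iic.mem_of_frequently_of_tendsto
        ((frequently_atTop.mpr (e j)).mono fun m hm => le_of_lt hm) ((hu (p γ)).sub_const (q γ)).abs
  rw [this]
  exact .iInter fun j => .iInter fun N => IsOpen.isGδ (isOpen_biUnion fun m _ =>
    isOpen_lt (by fun_prop) continuous_const)

def orb (g : ℕ → ℝ → ℝ) (x : ℝ) : ℕ → ℝ
  | 0 => x
  | i + 1 => g i (orb g x i)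

def Φ (k : ℕ) (g : ℕ → ℝ → ℝ) (x : ℝ) : Fin (k + 1) → ℝ := fun i => orb g x i

theorem gdΦ (k : ℕ) {g : ℕ → ℝ → ℝ} (hg : ∀ i, DB (g i)) (a b : ℝ) : IsGδ (Φ k g '' Icc a b) := by
  have : Φ k g '' Icc a b = {γ | γ 0 ∈ Icc a b} ∩ ⋂ i : Fin k, {γ | γ i.succ = g i (γ i.castSucc)} := by
    ext γ
    simp only [mem_inter_iff, mem_setOf_eq, mem_iInter]
    constructor
    · rintro ⟨x, hx, rfl⟩
      exact ⟨hx, fun i => rfl⟩
    · rintro ⟨h1, h2⟩
      refine ⟨γ 0, h1, funext fun i => ?_⟩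
      induction i using Fin.induction with
      | zero => rfl
      | succ i ih => rw [h2, ← ih]; rfl
  rw [this]
  exact (isClosed_Icc.preimage (continuous_apply 0)).isGδ.inter
    (.iInter fun i => gd (hg i) (continuous_apply _) (continuous_apply _))

def cl (a b x : ℝ) : ℝ := max a (min b x)

theorem cl_cont (a b : ℝ) : Continuous (cl a b) := by unfold cl; fun_prop

theorem oc {f : ℝ → ℝ} (hf : Continuous f) {s : Set ℝ} (hs : s.OrdConnected) :
    (f '' s).OrdConnected := (hs.isPreconnected.image f hf.continuousOn).ordConnected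

theorem DB.post {g f : ℝ → ℝ} (hg : DB g) (hf : Continuous f) : DB (f ∘ g) := by
  obtain ⟨u, cu, hu⟩ := hg.2
  exact ⟨fun s hs => by rw [image_comp]; exact oc hf (hg.1 s hs), fun m => f ∘ u m,
    fun m => hf.comp (cu m), fun x => (hf.tendsto _).comp (hu x)⟩

theorem main (k : ℕ) : ∀ g : ℕ → ℝ → ℝ, (∀ i, DB (g i)) → ∀ a b, IsPreconnected (Φ k g '' Icc a b) := by
  induction k with
  | zero =>
    refine fun g _ a b => isPreconnected_Icc.image _ (Continuous.continuousOn ?_)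
    exact continuous_pi fun i => by rw [Fin.fin_one_eq_zero i]; exact continuous_id
  | succ k ih =>
    intro g hg a b
    have hQ : Q (Φ k g '' Icc a b) fun γ => γ (Fin.last k) := by
      rintro _ ⟨x, hx, rfl⟩ δ δ0
      let g' : ℕ → ℝ → ℝ := fun i => cl (orb g x (i + 1) - δ / 2) (orb g x (i + 1) + δ / 2) ∘ g i
      have hF : ∀ i, ∃ G : Set ℝ, G.Finite ∧ ∀ y, orb g' y i ∉ G → ∀ j ≤ i, orb g' y j = orb g y j := by
        intro i
        induction i with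
        | zero => exact ⟨∅, finite_empty, fun y _ j hj => by rw [Nat.le_zero.mp hj]; rfl⟩
        | succ i ih =>
          obtain ⟨G, h1, h2⟩ := ih
          refine ⟨g' i '' G ∪ {orb g x (i + 1) - δ / 2, orb g x (i + 1) + δ / 2},
            (h1.image _).union (toFinite _), fun y hy j hj => ?_⟩
          have h3 := h2 y fun h => hy (Or.inl ⟨_, h, rfl⟩)
          rcases hj.lt_or_eq with h | rfl
          · exact h3 j (by omega)
          simp only [mem_union, mem_insert_iff, mem_singleton_iff, not_or] at hy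
          rw [orb, h3 i le_rfl] at hy ⊢
          simp only [g', cl, Function.comp] at hy ⊢
          rw [orb.eq_2 g y]
          grind
      obtain ⟨G, h1, h2⟩ := hF k
      refine ⟨Φ k g' '' Icc (max a (x - δ / 2)) (min b (x + δ / 2)), G, δ / 2,
        ih g' (fun i => (hg i).post (cl_cont _ _)) _ _, h1, by positivity, ?_, ?_⟩
      · rintro _ ⟨⟨y, hy, rfl⟩, h⟩
        rw [mem_ball, dist_pi_lt_iff (by positivity)] at h
        have h3 : ∀ j ≤ k, |orb g y j - orb g x j| < δ / 2 := fun j hj => h ⟨j, by omega⟩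
        have h4 : ∀ j ≤ k, orb g' y j = orb g y j := fun j hj => by
          induction j with
          | zero => rfl
          | succ j ih =>
            have := abs_lt.mp (h3 _ hj)
            rw [orb, ih (by omega)]
            simp only [g', cl, Function.comp]
            rw [orb.eq_2 g y] at this ⊢
            grind
        have := abs_lt.mp (h3 0 k.zero_le)
        simp only [orb] at this
        exact ⟨y, ⟨max_le hy.1 (by linarith), le_min hy.2 (by linarith)⟩,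
          funext fun i => h4 i (by omega)⟩
      · rintro _ ⟨y, hy, rfl⟩ h
        simp only [mem_Icc, max_le_iff, le_min_iff] at hy
        refine ⟨⟨y, ⟨hy.1.1, hy.2.1⟩, funext fun i => (h2 y h i (by omega)).symm⟩, ?_⟩
        rw [mem_ball, dist_pi_lt_iff δ0]
        rintro ⟨_ | i, hi⟩
        · show |y - x| < δ
          rw [abs_lt]
          constructor <;> linarith [hy.1.2, hy.2.2]
        · show |cl _ _ _ - orb g x (i + 1)| < δ
          rw [abs_lt, cl]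
          grind
    have := (core (gdΦ k hg a b) (ih g hg a b) (continuous_apply _) hQ (hg k)).image
      (fun p (i : Fin (k + 2)) => if h : i.1 < k + 1 then p.1 ⟨i, h⟩ else p.2)
      (Continuous.continuousOn (continuous_pi fun i => by split_ifs <;> fun_prop))
    rw [image_image, image_image] at this
    refine (congrArg IsPreconnected (image_congr fun x _ => funext fun i => ?_)).mp this
    split_ifs with h
    · rfl
    · show _ = orb g x i
      rw [show i.1 = k + 1 by omega]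
      rfl

theorem der {g F : ℝ → ℝ} (h : ∀ x ∈ Icc (0 : ℝ) 1, HasDerivWithinAt F (g x) (Icc 0 1) x) :
    DB (g ∘ cl 0 1) := by
  have m : ∀ x, cl 0 1 x ∈ Icc (0 : ℝ) 1 := fun x => by rw [cl, mem_Icc]; grind
  refine ⟨fun s hs => ?_, fun n x => (n + 1) * (F (cl 0 1 x * (1 - 1 / (n + 1)) + 1 / (n + 1)) -
    F (cl 0 1 x * (1 - 1 / (n + 1)))), ?_⟩
  · rw [image_comp]
    refine (oc (cl_cont 0 1) hs).image_hasDerivWithinAt (f := F) ?_
    rintro _ ⟨x, -, rfl⟩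
    exact (h _ (m x)).mono (by rintro _ ⟨y, -, rfl⟩; exact m y)
  have r : ∀ n : ℕ, 0 < 1 / ((n : ℝ) + 1) ∧ 1 / ((n : ℝ) + 1) ≤ 1 := fun n =>
    ⟨by positivity, div_le_one_of_le₀ (by simp) (by positivity)⟩
  have m1 : ∀ (n : ℕ) x, cl 0 1 x * (1 - 1 / (n + 1)) + 1 / (n + 1) ∈ Icc (0 : ℝ) 1 := fun n x => by
    constructor <;> nlinarith [(m x).1, (m x).2, r n]
  have m2 : ∀ (n : ℕ) x, cl 0 1 x * (1 - 1 / (n + 1)) ∈ Icc (0 : ℝ) 1 := fun n x => by
    constructor <;> nlinarith [(m x).1, (m x).2, r n]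
  have cF : ContinuousOn F (Icc 0 1) := fun x hx => (h x hx).continuousWithinAt
  have := cl_cont 0 1
  refine ⟨fun n => continuous_const.mul ((cF.comp_continuous (by fun_prop) (m1 n)).sub
    (cF.comp_continuous (by fun_prop) (m2 n))), fun x => Metric.tendsto_nhds.mpr fun ε ε0 => ?_⟩
  obtain ⟨δ, δ0, hδ⟩ := Metric.eventually_nhds_iff.mp (eventually_nhdsWithin_iff.mp
    ((h _ (m x)).isLittleO.def (half_pos ε0)))
  filter_upwards [tendsto_one_div_add_atTop_nhds_zero_nat.eventually_lt_const δ0] with n hn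
  have p0 := (m x).1
  have p1 := (m x).2
  have a1 := hδ (y := cl 0 1 x * (1 - 1 / (n + 1)) + 1 / (n + 1))
    (by rw [Real.dist_eq, abs_lt]; constructor <;> nlinarith [r n]) (m1 n x)
  have a2 := hδ (y := cl 0 1 x * (1 - 1 / (n + 1)))
    (by rw [Real.dist_eq, abs_lt]; constructor <;> nlinarith [r n]) (m2 n x)
  simp only [Real.norm_eq_abs, smul_eq_mul, Function.comp, Real.dist_eq] at a1 a2 ⊢
  rw [abs_of_nonneg (a := _ - cl 0 1 x) (by nlinarith [r n]), abs_le] at a1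
  rw [abs_of_nonpos (a := _ - cl 0 1 x) (by nlinarith [r n]), abs_le] at a2
  have e : ((n : ℝ) + 1) * (1 / (n + 1)) = 1 := by field_simp
  have n0 : (0 : ℝ) < n + 1 := by positivity
  generalize 1 / ((n : ℝ) + 1) = t at *
  generalize ((n : ℝ) + 1) = M at *
  have b1 := mul_le_mul_of_nonneg_left (add_le_add a1.1 (neg_le_neg a2.2)) n0.le
  have b2 := mul_le_mul_of_nonneg_left (add_le_add a1.2 (neg_le_neg a2.1)) n0.le
  rw [abs_lt]
  constructor
  · linear_combination b1 + (ε / 2 - g (cl 0 1 x)) * e + ε0 / 2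
  · linear_combination b2 + (ε / 2 + g (cl 0 1 x)) * e + ε0 / 2

theorem lst (l : List (ℝ → ℝ)) (hl : ∀ g ∈ l, MapsTo g (Icc (0 : ℝ) 1) (Icc (0 : ℝ) 1) ∧
    ∃ F : ℝ → ℝ, ∀ x ∈ Icc (0 : ℝ) 1, HasDerivWithinAt F (g x) (Icc (0 : ℝ) 1) x) :
    ∃ k g, (∀ i, DB (g i)) ∧ ∀ x ∈ Icc (0 : ℝ) 1, orb g x k = l.foldr (fun g h => g ∘ h) id x ∧
      orb g x k ∈ Icc (0 : ℝ) 1 := by
  induction l with
  | nil => exact ⟨0, fun _ => id, fun _ => ⟨fun s hs => by simpa using hs, fun _ => id,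
      fun _ => continuous_id, fun _ => tendsto_const_nhds⟩, fun x hx => ⟨rfl, hx⟩⟩
  | cons f l ih =>
    obtain ⟨k, g, h1, h2⟩ := ih fun g hg => hl g (List.mem_cons_of_mem _ hg)
    obtain ⟨h3, F, h4⟩ := hl f List.mem_cons_self
    refine ⟨k + 1, fun i => if i = k then f ∘ cl 0 1 else g i, fun i => ?_, fun x hx => ?_⟩
    · simp only
      split_ifs
      exacts [der h4, h1 i]
    have e : ∀ j ≤ k, orb (fun i => if i = k then f ∘ cl 0 1 else g i) x j = orb g x j := by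
      intro j hj
      induction j with
      | zero => rfl
      | succ j ih => rw [orb, ih (by omega), if_neg (by omega), orb]
    have e2 : cl 0 1 (orb g x k) = orb g x k := by
      have := (h2 x hx).2
      rw [mem_Icc] at this
      rw [cl]
      grind
    rw [orb, e k le_rfl, if_pos rfl, Function.comp_apply, e2]
    exact ⟨by rw [(h2 x hx).1]; rfl, h3 (h2 x hx).2⟩

theorem fin (l : List (ℝ → ℝ)) (hl : ∀ g ∈ l, MapsTo g (Icc (0 : ℝ) 1) (Icc (0 : ℝ) 1) ∧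
    ∃ F : ℝ → ℝ, ∀ x ∈ Icc (0 : ℝ) 1, HasDerivWithinAt F (g x) (Icc (0 : ℝ) 1) x) :
    IsConnected ((fun x : ℝ => (x, (l.foldr (fun g h => g ∘ h) id) x)) '' Icc (0 : ℝ) 1) := by
  obtain ⟨k, g, h1, h2⟩ := lst l hl
  have := (main k g h1 0 1).image (fun γ => (γ 0, γ (Fin.last k))) (by fun_prop)
  rw [image_image] at this
  refine ⟨(nonempty_Icc.mpr zero_le_one).image _, 
    (congrArg IsPreconnected (image_congr fun x hx => ?_)).mp this⟩
  rw [← (h2 x hx).1]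
  rfl

end Pool.Agent.H.MP_16fe1e_an
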